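import Mathlib

set_option autoImplicit false
open MeasureTheory Finset

namespace TH19

/-- sign of the half -/
noncomputable def sg (M i : ℕ) : ℝ := if 2 * i < M then 1 else -1

noncomputable def Lam (n s : ℕ) (f g h : ℕ → ℕ → ℝ) : ℝ :=
  ((4:ℝ) ^ s)⁻¹ * ((8:ℝ) ^ (n - s))⁻¹ *
    ∑ p ∈ range (2 ^ s), ∑ q ∈ range (2 ^ s),
      ∑ i ∈ range (2 ^ (n - s)), ∑ j ∈ range (2 ^ (n - s)), ∑ k ∈ range (2 ^ (n - s)),
        sg (2 ^ (n - s)) i * sg (2 ^ (n - s)) j * sg (2 ^ (n - s)) k *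
          f (p * 2 ^ (n - s) + i) (q * 2 ^ (n - s) + j) *
          g (q * 2 ^ (n - s) + j) ((p ^^^ q) * 2 ^ (n - s) + k) *
          h ((p ^^^ q) * 2 ^ (n - s) + k) (p * 2 ^ (n - s) + i)

noncomputable def a3 (n : ℕ) (f : ℕ → ℕ → ℝ) : ℝ :=
  ((4:ℝ) ^ n)⁻¹ * ∑ i ∈ range (2 ^ n), ∑ j ∈ range (2 ^ n), |f i j| ^ 3

def FSflat : Prop := ∃ C : ℝ, ∀ (n : ℕ) (f g h : ℕ → ℕ → ℝ),
  ∑ s ∈ range n, |Lam n s f g h| ≤ C * (a3 n f + a3 n g + a3 n h)

/-- unit interval measure -/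
noncomputable def nu : Measure ℝ := volume.restrict (Set.Ico (0:ℝ) 1)

instance : IsProbabilityMeasure nu := by
  constructor
  simp [nu]

/-- Haar function -/
noncomputable def hh (k : ℤ) (a : ℕ) (x : ℝ) : ℝ :=
  Set.indicator (Set.Ico ((2:ℝ) ^ k * (a : ℝ)) ((2:ℝ) ^ k * (a : ℝ) + (2:ℝ) ^ (k - 1))) (fun _ => (1:ℝ)) x
    - Set.indicator (Set.Ico ((2:ℝ) ^ k * (a : ℝ) + (2:ℝ) ^ (k - 1)) ((2:ℝ) ^ k * ((a : ℝ) + 1))) (fun _ => (1:ℝ)) x

/-- cell indicator -/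
noncomputable def ci (δ c : ℝ) (x : ℝ) : ℝ := Set.indicator (Set.Ico (δ * c) (δ * (c + 1))) (fun _ => (1:ℝ)) x

def BM {α : Type*} [MeasurableSpace α] (F : α → ℝ) : Prop := Measurable F ∧ ∃ B : ℝ, ∀ x, |F x| ≤ B

section BMlemmas
variable {α β : Type*} [MeasurableSpace α] [MeasurableSpace β]

lemma BM.integrable {F : α → ℝ} (h : BM F) (μ : Measure α) [IsFiniteMeasure μ] : Integrable F μ := by
  obtain ⟨hm, B, hB⟩ := h
  exact Integrable.of_bound hm.aestronglyMeasurable B (Filter.Eventually.of_forall (fun x => by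
    rw [Real.norm_eq_abs]; exact hB x))

lemma BM.comp {F : α → ℝ} (h : BM F) {g : β → α} (hg : Measurable g) : BM (fun x => F (g x)) := by
  obtain ⟨hm, B, hB⟩ := h
  exact ⟨hm.comp hg, B, fun x => hB _⟩

lemma BM.mul {F G : α → ℝ} (h : BM F) (h' : BM G) : BM (fun x => F x * G x) := by
  obtain ⟨hm, B, hB⟩ := h
  obtain ⟨hm', B', hB'⟩ := h'
  refine ⟨hm.mul hm', B * B', fun x => ?_⟩
  rw [abs_mul]
  exact mul_le_mul (hB x) (hB' x) (abs_nonneg _) (le_trans (abs_nonneg _) (hB x))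

lemma BM.add {F G : α → ℝ} (h : BM F) (h' : BM G) : BM (fun x => F x + G x) := by
  obtain ⟨hm, B, hB⟩ := h
  obtain ⟨hm', B', hB'⟩ := h'
  exact ⟨hm.add hm', B + B', fun x => le_trans (abs_add_le _ _) (add_le_add (hB x) (hB' x))⟩

lemma BM.const (c : ℝ) : BM (fun _ : α => c) := ⟨measurable_const, |c|, fun _ => le_refl _⟩

lemma BM.const_mul {F : α → ℝ} (h : BM F) (c : ℝ) : BM (fun x => c * F x) := (BM.const c).mul h

lemma BM.sum {ι : Type*} (s : Finset ι) {F : ι → α → ℝ} (h : ∀ i ∈ s, BM (F i)) :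
    BM (fun x => ∑ i ∈ s, F i x) := by
  classical
  induction s using Finset.induction_on with
  | empty => simpa using (BM.const (α := α) 0)
  | insert a s ha ih =>
    have h1 : BM (fun x => F a x + ∑ i ∈ s, F i x) :=
      (h a (Finset.mem_insert_self _ _)).add (ih (fun i hi => h i (Finset.mem_insert_of_mem hi)))
    simpa [Finset.sum_insert ha] using h1

lemma BM.abs {F : α → ℝ} (h : BM F) : BM (fun x => |F x|) := by
  obtain ⟨hm, B, hB⟩ := h
  exact ⟨hm.abs, B, fun x => by rw [abs_abs]; exact hB x⟩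

lemma BM.pow {F : α → ℝ} (h : BM F) (n : ℕ) : BM (fun x => F x ^ n) := by
  induction n with
  | zero => simpa using (BM.const (α := α) 1)
  | succ n ih => simpa [pow_succ] using ih.mul h

lemma BM.part {F : α × ℝ → ℝ} (h : BM F) : BM (fun x => ∫ w, F (x, w) ∂nu) := by
  obtain ⟨hm, B, hB⟩ := h
  refine ⟨?_, B, fun x => ?_⟩
  · exact (hm.stronglyMeasurable.integral_prod_right').measurable
  · have := norm_integral_le_of_norm_le_const (μ := nu) (f := fun w => F (x, w)) (C := B)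
      (Filter.Eventually.of_forall (fun w => by rw [Real.norm_eq_abs]; exact hB _))
    simpa [Real.norm_eq_abs] using this

lemma hh_BM (k : ℤ) (a : ℕ) : BM (hh k a) := by
  unfold hh
  refine ⟨?_, 2, ?_⟩
  · exact (measurable_const.indicator measurableSet_Ico).sub (measurable_const.indicator measurableSet_Ico)
  · intro x
    have h1 : ∀ s : Set ℝ, |Set.indicator s (fun _ => (1:ℝ)) x| ≤ 1 := by
      intro s
      by_cases hx : x ∈ s
      · simp [hx]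
      · simp [hx]
    calc _ ≤ |Set.indicator (Set.Ico ((2:ℝ) ^ k * (a : ℝ)) ((2:ℝ) ^ k * (a : ℝ) + (2:ℝ) ^ (k - 1))) (fun _ => (1:ℝ)) x| +
        |Set.indicator (Set.Ico ((2:ℝ) ^ k * (a : ℝ) + (2:ℝ) ^ (k - 1)) ((2:ℝ) ^ k * ((a : ℝ) + 1))) (fun _ => (1:ℝ)) x| := abs_sub _ _
      _ ≤ 1 + 1 := add_le_add (h1 _) (h1 _)
      _ = 2 := by norm_num

end BMlemmas

/-- telescoping of indicators -/
lemma ind_split (δ c : ℝ) (hδ : 0 < δ) (x : ℝ) (m : ℕ) :
    Set.indicator (Set.Ico (δ * c) (δ * (c + m))) (fun _ => (1:ℝ)) x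
      = ∑ i ∈ range m, ci δ (c + i) x := by
  induction m with
  | zero => simp
  | succ m ih =>
    rw [Finset.sum_range_succ, ← ih]
    unfold ci
    have e1 : δ * c ≤ δ * (c + m) := by
      apply mul_le_mul_of_nonneg_left _ hδ.le
      have : (0:ℝ) ≤ m := Nat.cast_nonneg m
      linarith
    have e2 : δ * (c + m) ≤ δ * (c + (m + 1 : ℕ)) := by
      apply mul_le_mul_of_nonneg_left _ hδ.le
      push_cast; linarith
    have e3 : δ * (c + (m:ℝ) + 1) = δ * (c + ((m + 1 : ℕ) : ℝ)) := by push_cast; ring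
    rw [e3]
    have hU : Set.Ico (δ * c) (δ * (c + (m + 1 : ℕ))) =
        Set.Ico (δ * c) (δ * (c + m)) ∪ Set.Ico (δ * (c + m)) (δ * (c + (m + 1 : ℕ))) :=
      (Set.Ico_union_Ico_eq_Ico e1 e2).symm
    rw [hU, Set.indicator_union_of_disjoint]
    exact Set.Ico_disjoint_Ico_same

/-- pointwise decomposition of a Haar function -/
lemma hh_eq (l t : ℕ) (k : ℤ) (hk : k = (t:ℤ) + 1 - l) (a : ℕ) (x : ℝ) :
    hh k a x = ∑ i ∈ range (2 ^ (t + 1)), sg (2 ^ (t + 1)) i *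
      ci ((2:ℝ) ^ (-(l:ℤ))) (((a * 2 ^ (t + 1) + i : ℕ) : ℝ)) x := by
  set δ : ℝ := (2:ℝ) ^ (-(l:ℤ)) with hδdef
  have hδ : 0 < δ := by positivity
  have hk2 : (2:ℝ) ^ k = δ * 2 ^ (t + 1) := by
    rw [hk, hδdef, ← zpow_natCast (2:ℝ) (t + 1), ← zpow_add₀ (by norm_num : (2:ℝ) ≠ 0)]
    congr 1; push_cast; ring
  have hk3 : (2:ℝ) ^ (k - 1) = δ * 2 ^ t := by
    rw [hk, hδdef, ← zpow_natCast (2:ℝ) t, ← zpow_add₀ (by norm_num : (2:ℝ) ≠ 0)]
    congr 1; push_cast; ring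
  have hp : 2 ^ (t + 1) = 2 ^ t + 2 ^ t := by ring
  unfold hh
  have e1 : (2:ℝ) ^ k * (a:ℝ) = δ * ((a:ℝ) * 2 ^ (t + 1)) := by rw [hk2]; ring
  have e2 : δ * ((a:ℝ) * 2 ^ (t + 1)) + (2:ℝ) ^ (k - 1) = δ * ((a:ℝ) * 2 ^ (t + 1) + ((2 ^ t : ℕ) : ℝ)) := by
    rw [hk3]; push_cast; ring
  have e3 : (2:ℝ) ^ k * ((a:ℝ) + 1) = δ * (((a:ℝ) * 2 ^ (t + 1) + ((2 ^ t : ℕ) : ℝ)) + ((2 ^ t : ℕ) : ℝ)) := by
    rw [hk2]; push_cast; ring
  rw [e1, e2, e3, ind_split δ _ hδ x (2 ^ t), ind_split δ _ hδ x (2 ^ t)]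
  rw [show range (2 ^ (t + 1)) = range (2 ^ t + 2 ^ t) by rw [hp], Finset.sum_range_add, sub_eq_add_neg,
    ← Finset.sum_neg_distrib]
  congr 1
  · apply Finset.sum_congr rfl
    intro i hi
    have hi' : 2 * i < 2 ^ (t + 1) := by
      have := Finset.mem_range.mp hi
      rw [pow_succ]; omega
    rw [sg, if_pos hi', one_mul]
    congr 1; push_cast; ring
  · apply Finset.sum_congr rfl
    intro i hi
    have hi' : ¬ (2 * (2 ^ t + i) < 2 ^ (t + 1)) := by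
      rw [pow_succ]; omega
    rw [sg, if_neg hi']
    rw [neg_one_mul]
    congr 2; push_cast; ring

/-- change of variables on a cell -/
lemma cell_int (δ c : ℝ) (hδ : 0 < δ) (φ : ℝ → ℝ) :
    ∫ x, φ x * ci δ c x = δ * ∫ u, φ (δ * (c + u)) ∂nu := by
  have h1 : ∫ x, φ x * ci δ c x = δ * ∫ x, φ (δ * x) * ci δ c (δ * x) := by
    have := Measure.integral_comp_mul_left (fun x => φ x * ci δ c x) δ
    rw [this, abs_of_pos (inv_pos.mpr hδ), smul_eq_mul, ← mul_assoc, mul_inv_cancel₀ hδ.ne', one_mul]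
  have h2 : ∫ x, φ (δ * x) * ci δ c (δ * x) = ∫ u, φ (δ * (c + u)) * ci δ c (δ * (c + u)) := by
    exact (integral_add_left_eq_self (fun x => φ (δ * x) * ci δ c (δ * x)) c).symm
  rw [h1, h2]
  congr 1
  rw [nu, ← integral_indicator measurableSet_Ico]
  apply integral_congr_ae
  refine Filter.Eventually.of_forall (fun u => ?_)
  simp only
  by_cases hu : u ∈ Set.Ico (0:ℝ) 1
  · rw [Set.indicator_of_mem hu]
    have : δ * (c + u) ∈ Set.Ico (δ * c) (δ * (c + 1)) := by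
      constructor
      · apply mul_le_mul_of_nonneg_left _ hδ.le; linarith [hu.1]
      · apply mul_lt_mul_of_pos_left _ hδ; linarith [hu.2]
    rw [ci, Set.indicator_of_mem this, mul_one]
  · rw [Set.indicator_of_notMem hu]
    have : δ * (c + u) ∉ Set.Ico (δ * c) (δ * (c + 1)) := by
      rintro ⟨h3, h4⟩
      apply hu
      constructor
      · have := le_of_mul_le_mul_left h3 hδ; linarith
      · have := lt_of_mul_lt_mul_left h4 hδ.le; linarith
    rw [ci, Set.indicator_of_notMem this, mul_zero]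

lemma ci_integrable (δ c : ℝ) {φ : ℝ → ℝ} (hφ : BM φ) : Integrable (fun x => φ x * ci δ c x) := by
  obtain ⟨hm, B, hB⟩ := hφ
  have h1 : (fun x => φ x * ci δ c x) = Set.indicator (Set.Ico (δ * c) (δ * (c + 1))) φ := by
    funext x
    unfold ci
    by_cases hx : x ∈ Set.Ico (δ * c) (δ * (c + 1))
    · simp [hx]
    · simp [Set.indicator_of_notMem hx]
  rw [h1, integrable_indicator_iff measurableSet_Ico]
  apply IntegrableOn.of_bound (by simp) hm.aestronglyMeasurable.restrict B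
  exact Filter.Eventually.of_forall (fun x => by rw [Real.norm_eq_abs]; exact hB x)

lemma aff_meas (δ c : ℝ) : Measurable (fun u : ℝ => δ * (c + u)) := by fun_prop

/-- 1D lemma A -/
lemma lemA (l t : ℕ) (k : ℤ) (hk : k = (t:ℤ) + 1 - l) (a : ℕ) {φ : ℝ → ℝ} (hφ : BM φ) :
    ∫ x, φ x * hh k a x = ∫ u, (2:ℝ) ^ (-(l:ℤ)) * ∑ i ∈ range (2 ^ (t + 1)), sg (2 ^ (t + 1)) i *
      φ ((2:ℝ) ^ (-(l:ℤ)) * (((a * 2 ^ (t + 1) + i : ℕ) : ℝ) + u)) ∂nu := by
  have hδ : (0:ℝ) < (2:ℝ) ^ (-(l:ℤ)) := by positivity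
  have h1 : ∀ x, φ x * hh k a x = ∑ i ∈ range (2 ^ (t + 1)), sg (2 ^ (t + 1)) i *
      (φ x * ci ((2:ℝ) ^ (-(l:ℤ))) (((a * 2 ^ (t + 1) + i : ℕ) : ℝ)) x) := by
    intro x
    rw [hh_eq l t k hk a x, Finset.mul_sum]
    apply Finset.sum_congr rfl
    intro i _; ring
  simp_rw [h1]
  rw [integral_finset_sum _ (fun i _ => (ci_integrable _ _ hφ).const_mul _)]
  simp_rw [integral_const_mul, cell_int _ _ hδ]
  rw [integral_finset_sum]
  · rw [Finset.mul_sum]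
    apply Finset.sum_congr rfl
    intro i _
    rw [integral_const_mul]; ring
  · intro i _
    exact ((hφ.comp (aff_meas _ _)).integrable nu).const_mul _

end TH19
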