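import Pool.Agent.Helper19.TH.Tri

set_option autoImplicit false
open MeasureTheory Finset

namespace TH19

/-- admissible functions -/
def Adm (f : ℝ × ℝ → ℝ) : Prop := Measurable f ∧ HasCompactSupport f ∧ ∃ M : ℝ, ∀ p, |f p| ≤ M

lemma Adm.bm {f : ℝ × ℝ → ℝ} (h : Adm f) : BM f := ⟨h.1, h.2.2⟩

lemma Adm.supp {f : ℝ × ℝ → ℝ} (h : Adm f) : ∃ N0 : ℕ, ∀ N, N0 ≤ N → Supp N f := by
  obtain ⟨R, hR⟩ := h.2.1.isCompact.isBounded.subset_closedBall (0 : ℝ × ℝ)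
  obtain ⟨N0, hN0⟩ := pow_unbounded_of_one_lt R (by norm_num : (1:ℝ) < 2)
  refine ⟨N0, fun N hN x y hxy => ?_⟩
  have h1 : ((x, y) : ℝ × ℝ) ∈ Metric.closedBall (0 : ℝ × ℝ) R := hR (subset_tsupport _ hxy)
  rw [mem_closedBall_zero_iff, Prod.norm_def] at h1
  have h2 : (2:ℝ) ^ N0 ≤ 2 ^ N := pow_le_pow_right₀ (by norm_num) hN
  have h3 := le_trans (le_max_left _ _) h1
  have h4 := le_trans (le_max_right _ _) h1
  simp only [Real.norm_eq_abs] at h3 h4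
  exact ⟨by linarith, by linarith⟩

lemma Adm.const_mul {f : ℝ × ℝ → ℝ} (h : Adm f) (c : ℝ) : Adm (fun p => c * f p) :=
  ⟨h.1.const_mul c, h.2.1.mul_left, (h.bm.const_mul c).2⟩

lemma Adm.integrable {f : ℝ × ℝ → ℝ} (h : Adm f) : Integrable (fun p => |f p| ^ 3) := by
  obtain ⟨hm, hc, M, hM⟩ := h
  have hs : ∀ p, p ∉ tsupport f → |f p| ^ 3 = 0 := by
    intro p hp
    rw [image_eq_zero_of_notMem_tsupport hp]; simp
  have h1 : IntegrableOn (fun p => |f p| ^ 3) (tsupport f) := by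
    apply IntegrableOn.of_bound hc.isCompact.measure_lt_top
      ((hm.abs.pow_const 3).aestronglyMeasurable.restrict) (M ^ 3)
    refine Filter.Eventually.of_forall (fun p => ?_)
    rw [Real.norm_eq_abs, abs_of_nonneg (by positivity)]
    exact pow_le_pow_left₀ (abs_nonneg _) (hM p) 3
  exact (integrableOn_iff_integrable_of_support_subset (by
    intro p hp
    by_contra hcon
    exact hp (hs p hcon))).mp h1

lemma Adm.cube {f : ℝ × ℝ → ℝ} (h : Adm f) : ((eLpNorm f 3 volume).toReal) ^ 3 = ∫ p, |f p| ^ 3 := by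
  have hint := h.integrable
  have hmem : MemLp f 3 volume := by
    rw [← integrable_norm_rpow_iff h.1.aestronglyMeasurable (by norm_num) (by norm_num)]
    refine hint.congr (Filter.Eventually.of_forall (fun p => ?_))
    simp only [Real.norm_eq_abs]
    rw [show ((3 : ENNReal)).toReal = ((3:ℕ):ℝ) by norm_num, Real.rpow_natCast]
  rw [hmem.eLpNorm_eq_integral_rpow_norm (by norm_num) (by norm_num)]
  have hnn : 0 ≤ ∫ p, |f p| ^ 3 := integral_nonneg (fun p => by positivity)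
  have e : ∫ a, ‖f a‖ ^ ((3 : ENNReal)).toReal = ∫ p, |f p| ^ 3 := by
    congr 1
    funext p
    simp only [Real.norm_eq_abs]
    rw [show ((3 : ENNReal)).toReal = ((3:ℕ):ℝ) by norm_num, Real.rpow_natCast]
  rw [e, ENNReal.toReal_ofReal (Real.rpow_nonneg hnn _)]
  rw [show ((3 : ENNReal)).toReal⁻¹ = ((3:ℕ):ℝ)⁻¹ by norm_num]
  exact Real.rpow_inv_natCast_pow hnn (by norm_num)

noncomputable def box (l n : ℕ) (x : ℝ) : ℝ :=
  Set.indicator (Set.Ico ((2:ℝ) ^ (-(l:ℤ)) * 0) ((2:ℝ) ^ (-(l:ℤ)) * (0 + (2 ^ n : ℕ)))) (fun _ => (1:ℝ)) x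

lemma box_nonneg (l n : ℕ) (x : ℝ) : 0 ≤ box l n x := by
  unfold box; apply Set.indicator_nonneg; intro _ _; norm_num

lemma box_le (l n : ℕ) (x : ℝ) : box l n x ≤ 1 := by
  unfold box
  apply Set.indicator_le' <;> intro _ _ <;> norm_num

lemma box_meas (l n : ℕ) : Measurable (box l n) := measurable_const.indicator measurableSet_Ico

lemma lemC (l n : ℕ) {φ : ℝ → ℝ} (hφ : BM φ) :
    ∫ u, (2:ℝ) ^ (-(l:ℤ)) * ∑ i ∈ range (2 ^ n), φ (pt l i u) ∂nu = ∫ x, φ x * box l n x := by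
  have hδ : (0:ℝ) < (2:ℝ) ^ (-(l:ℤ)) := by positivity
  have h1 : ∀ x, φ x * box l n x = ∑ i ∈ range (2 ^ n), φ x * ci ((2:ℝ) ^ (-(l:ℤ))) (0 + (i:ℝ)) x := by
    intro x
    unfold box
    rw [ind_split _ 0 hδ x (2 ^ n), Finset.mul_sum]
  simp_rw [h1]
  rw [integral_finsetSum _ (fun i _ => (ci_integrable _ _ hφ))]
  simp_rw [cell_int _ _ hδ]
  rw [integral_const_mul, integral_finsetSum]
  · rw [Finset.mul_sum]
    apply Finset.sum_congr rfl
    intro i _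
    simp only [zero_add]
    rfl
  · intro i _
    exact ((hφ.comp (pt_meas l i)).integrable nu)

lemma a3_nonneg (n : ℕ) (f : ℕ → ℕ → ℝ) : 0 ≤ a3 n f := by
  unfold a3
  apply mul_nonneg (by positivity)
  exact Finset.sum_nonneg (fun i _ => Finset.sum_nonneg (fun j _ => by positivity))

lemma a3_BM (l n : ℕ) {f : ℝ × ℝ → ℝ} (hf : BM f) :
    BM (fun p : ℝ × ℝ => a3 n (fun i j => f (pt l i p.1, pt l j p.2))) := by
  unfold a3
  refine BM.const_mul (BM.sum _ (fun i _ => BM.sum _ (fun j _ => ?_))) _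
  have m1 := pt_meas l i
  have m2 := pt_meas l j
  exact ((hf.comp (by fun_prop)).abs).pow 3

/-- integral of the discrete cube norm -/
lemma a3_int (N l n : ℕ) (hn : n = N + l) {f : ℝ × ℝ → ℝ} (hf : Adm f) :
    ∫ u, ∫ v, (4:ℝ) ^ N * a3 n (fun i j => f (pt l i u, pt l j v)) ∂nu ∂nu ≤ ∫ p, |f p| ^ 3 := by
  set δ : ℝ := (2:ℝ) ^ (-(l:ℤ)) with hδ
  have hF : BM (fun p : ℝ × ℝ => |f p| ^ 3) := hf.bm.abs.pow 3
  have hc : (4:ℝ) ^ N * ((4:ℝ) ^ n)⁻¹ = δ * δ := by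
    have h2 : (2:ℝ) ≠ 0 := by norm_num
    have e4 : ∀ m : ℕ, (4:ℝ) ^ m = (2:ℝ) ^ (2 * (m:ℤ)) := by
      intro m
      rw [zpow_mul, zpow_natCast]; norm_num
    rw [e4, e4, hδ, ← zpow_neg, ← zpow_add₀ h2, ← zpow_add₀ h2]
    congr 1
    rw [hn]; push_cast; ring
  let ψ : ℝ → ℝ := fun x => ∫ v, δ * ∑ j ∈ range (2 ^ n), |f (x, pt l j v)| ^ 3 ∂nu
  have hψ : BM ψ := by
    have : BM (fun q : ℝ × ℝ => δ * ∑ j ∈ range (2 ^ n), |f (q.1, pt l j q.2)| ^ 3) := by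
      refine BM.const_mul (BM.sum _ (fun j _ => ?_)) _
      have m2 := pt_meas l j
      exact ((hf.bm.comp (by fun_prop)).abs).pow 3
    exact this.part
  have h1 : ∀ u, ∫ v, (4:ℝ) ^ N * a3 n (fun i j => f (pt l i u, pt l j v)) ∂nu =
      δ * ∑ i ∈ range (2 ^ n), ψ (pt l i u) := by
    intro u
    have h2 : ∀ v, (4:ℝ) ^ N * a3 n (fun i j => f (pt l i u, pt l j v)) =
        δ * ∑ i ∈ range (2 ^ n), 1 * (δ * ∑ j ∈ range (2 ^ n), |f (pt l i u, pt l j v)| ^ 3) := by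
      intro v
      unfold a3
      rw [← mul_assoc, hc]
      simp only [Finset.mul_sum]
      refine Finset.sum_congr rfl (fun i _ => Finset.sum_congr rfl (fun j _ => ?_))
      ring
    simp_rw [h2]
    rw [← sum_int (range (2 ^ n)) δ (fun _ => 1) (fun i v => δ * ∑ j ∈ range (2 ^ n), |f (pt l i u, pt l j v)| ^ 3)]
    · simp only [ψ, one_mul]
    · intro i _
      refine BM.const_mul (BM.sum _ (fun j _ => ?_)) _
      have m2 := pt_meas l j
      exact ((hf.bm.comp (by fun_prop)).abs).pow 3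
  simp_rw [h1]
  rw [lemC l n hψ]
  have h3 : ∀ x, ψ x * box l n x = ∫ y, |f (x, y)| ^ 3 * (box l n y * box l n x) := by
    intro x
    have : ψ x = ∫ y, |f (x, y)| ^ 3 * box l n y :=
      lemC l n (φ := fun y => |f (x, y)| ^ 3) (hF.comp (by fun_prop))
    rw [this, ← integral_mul_const]
    congr 1; funext y; ring
  simp_rw [h3]
  have hint : Integrable (fun p : ℝ × ℝ => |f p| ^ 3 * (box l n p.2 * box l n p.1)) (volume.prod volume) := by
    apply hf.integrable.mono'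
    · have := box_meas l n
      exact (Measurable.mul hF.1 (by fun_prop)).aestronglyMeasurable
    · refine Filter.Eventually.of_forall (fun p => ?_)
      have b1 := box_nonneg l n p.1
      have b2 := box_nonneg l n p.2
      rw [Real.norm_eq_abs, abs_of_nonneg (by positivity)]
      have : box l n p.2 * box l n p.1 ≤ 1 := by
        calc _ ≤ 1 * 1 := mul_le_mul (box_le _ _ _) (box_le _ _ _) b1 (by norm_num)
          _ = 1 := one_mul _
      calc _ ≤ |f p| ^ 3 * 1 := mul_le_mul_of_nonneg_left this (by positivity)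
        _ = _ := mul_one _
  rw [← integral_prod (fun p : ℝ × ℝ => |f p| ^ 3 * (box l n p.2 * box l n p.1)) hint]
  apply integral_mono hint hf.integrable
  intro p
  have b1 := box_nonneg l n p.1
  have b2 := box_nonneg l n p.2
  have : box l n p.2 * box l n p.1 ≤ 1 := by
    calc _ ≤ 1 * 1 := mul_le_mul (box_le _ _ _) (box_le _ _ _) b1 (by norm_num)
      _ = 1 := one_mul _
  calc |f p| ^ 3 * (box l n p.2 * box l n p.1) ≤ |f p| ^ 3 * 1 := mul_le_mul_of_nonneg_left this (by positivity)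
    _ = _ := mul_one _

lemma iter3' {F : ℝ × ℝ → ℝ} (hF : BM F) :
    ∫ p : ℝ × ℝ × ℝ, F (p.1, p.2.1) ∂(nu.prod (nu.prod nu)) = ∫ u, ∫ v, F (u, v) ∂nu ∂nu := by
  rw [← iter3 (hF.comp (by fun_prop) : BM (fun p : ℝ × ℝ × ℝ => F (p.1, p.2.1)))]
  simp

lemma iter3'' {F : ℝ × ℝ → ℝ} (hF : BM F) :
    ∫ p : ℝ × ℝ × ℝ, F (p.2.1, p.2.2) ∂(nu.prod (nu.prod nu)) = ∫ u, ∫ v, F (u, v) ∂nu ∂nu := by
  rw [← iter3 (hF.comp (by fun_prop) : BM (fun p : ℝ × ℝ × ℝ => F (p.2.1, p.2.2)))]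
  simp

lemma iter3''' {F : ℝ × ℝ → ℝ} (hF : BM F) :
    ∫ p : ℝ × ℝ × ℝ, F (p.2.2, p.1) ∂(nu.prod (nu.prod nu)) = ∫ u, ∫ v, F (u, v) ∂nu ∂nu := by
  rw [← iter3 (hF.comp (by fun_prop) : BM (fun p : ℝ × ℝ × ℝ => F (p.2.2, p.1)))]
  simp only [integral_const, probReal_univ, one_smul]
  rw [integral_integral_swap]
  exact (hF.comp (by fun_prop) : BM (fun q : ℝ × ℝ => F (q.2, q.1))).integrable _

/-- the form -/
noncomputable def Form (S : Finset ℤ) (ε : ℤ → ℝ) (f g h : ℝ × ℝ → ℝ) : ℝ :=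
  ∑ k ∈ S, (2:ℝ) ^ (-k) * ε k * ∑' ab : ℕ × ℕ, ∫ x, ∫ y, ∫ z, f (x, y) * g (y, z) * h (z, x) *
    hh k ab.1 x * hh k ab.2 y * hh k (ab.1 ^^^ ab.2) z

lemma Form_scale (S : Finset ℤ) (ε : ℤ → ℝ) (f g h : ℝ × ℝ → ℝ) (a b c : ℝ) :
    Form S ε (fun p => a * f p) (fun p => b * g p) (fun p => c * h p) = (a * b * c) * Form S ε f g h := by
  unfold Form
  rw [Finset.mul_sum]
  apply Finset.sum_congr rfl
  intro k _
  have h1 : ∀ (x y z : ℝ) (ab : ℕ × ℕ), a * f (x, y) * (b * g (y, z)) * (c * h (z, x)) * hh k ab.1 x * hh k ab.2 y *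
      hh k (ab.1 ^^^ ab.2) z = (a * b * c) * (f (x, y) * g (y, z) * h (z, x) *
    hh k ab.1 x * hh k ab.2 y * hh k (ab.1 ^^^ ab.2) z) := by intros; ring
  simp_rw [h1, integral_const_mul, tsum_mul_left]
  ring

lemma form_cubes {C : ℝ} (hC : ∀ (n : ℕ) (f g h : ℕ → ℕ → ℝ),
      ∑ s ∈ range n, |Lam n s f g h| ≤ C * (a3 n f + a3 n g + a3 n h))
    (S : Finset ℤ) (ε : ℤ → ℝ) (hε : ∀ k, |ε k| ≤ 1) {f g h : ℝ × ℝ → ℝ} (hf : Adm f) (hg : Adm g) (hh' : Adm h) :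
    |Form S ε f g h| ≤ |C| * ((∫ p, |f p| ^ 3) + (∫ p, |g p| ^ 3) + (∫ p, |h p| ^ 3)) := by
  obtain ⟨N0, hN0⟩ := hf.supp
  -- choose N, l
  obtain ⟨K, hK⟩ : ∃ K : ℕ, ∀ k ∈ S, k ≤ K ∧ -(K:ℤ) < k := by
    refine ⟨(∑ k ∈ S, k.natAbs) + 1, fun k hk => ?_⟩
    have := Finset.single_le_sum (f := fun k : ℤ => k.natAbs) (fun _ _ => Nat.zero_le _) hk
    constructor <;> omega
  set N := max N0 K with hN
  set l := K with hl
  set n := N + l with hn
  have hsf : Supp N f := hN0 N (le_max_left _ _)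
  have hsK : ∀ k ∈ S, ((N:ℤ) - k).toNat < n ∧ k = (N:ℤ) - (((N:ℤ) - k).toNat : ℕ) := by
    intro k hk
    obtain ⟨h1, h2⟩ := hK k hk
    have h3 : (K:ℤ) ≤ N := by exact_mod_cast le_max_right N0 K
    constructor <;> omega
  let L : ℕ → ℝ × ℝ × ℝ → ℝ := fun s p => Lam n s (fun i j => f (pt l i p.1, pt l j p.2.1))
    (fun i j => g (pt l i p.2.1, pt l j p.2.2)) (fun i j => h (pt l i p.2.2, pt l j p.1))
  have hL : ∀ s, BM (L s) := by
    intro s
    simp only [L]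
    unfold Lam
    refine BM.const_mul (BM.sum _ (fun p _ => BM.sum _ (fun q _ => BM.sum _ (fun i _ => BM.sum _ (fun j _ =>
      BM.sum _ (fun m _ => ?_)))))) _
    have m1 := pt_meas l (p * 2 ^ (n - s) + i)
    have m2 := pt_meas l (q * 2 ^ (n - s) + j)
    have m3 := pt_meas l ((p ^^^ q) * 2 ^ (n - s) + m)
    exact (((BM.const _).mul (hf.bm.comp (by fun_prop))).mul (hg.bm.comp (by fun_prop))).mul (hh'.bm.comp (by fun_prop))
  let P := nu.prod (nu.prod nu)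
  have hk : ∀ k ∈ S, (2:ℝ) ^ (-k) * ∑' ab : ℕ × ℕ, ∫ x, ∫ y, ∫ z, f (x, y) * g (y, z) * h (z, x) *
    hh k ab.1 x * hh k ab.2 y * hh k (ab.1 ^^^ ab.2) z = ∫ p, (4:ℝ) ^ N * L (((N:ℤ) - k).toNat) p ∂P := by
    intro k hk
    obtain ⟨h1, h2⟩ := hsK k hk
    rw [scale_id N l n _ hn h1 k h2 hf.bm hg.bm hh'.bm hsf]
    exact iter3 ((hL _).const_mul _)
  have s1 : |Form S ε f g h| ≤ ∑ k ∈ S, ∫ p, (4:ℝ) ^ N * |L (((N:ℤ) - k).toNat) p| ∂P := by
    unfold Form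
    refine le_trans (Finset.abs_sum_le_sum_abs _ _) (Finset.sum_le_sum (fun k hkS => ?_))
    rw [show (2:ℝ) ^ (-k) * ε k * ∑' ab : ℕ × ℕ, ∫ x, ∫ y, ∫ z, f (x, y) * g (y, z) * h (z, x) *
      hh k ab.1 x * hh k ab.2 y * hh k (ab.1 ^^^ ab.2) z = ε k * ((2:ℝ) ^ (-k) * ∑' ab : ℕ × ℕ, ∫ x, ∫ y, ∫ z,
      f (x, y) * g (y, z) * h (z, x) * hh k ab.1 x * hh k ab.2 y * hh k (ab.1 ^^^ ab.2) z) by ring, hk k hkS, abs_mul]
    calc |ε k| * |∫ p, (4:ℝ) ^ N * L (((N:ℤ) - k).toNat) p ∂P|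
        ≤ 1 * |∫ p, (4:ℝ) ^ N * L (((N:ℤ) - k).toNat) p ∂P| := mul_le_mul_of_nonneg_right (hε k) (abs_nonneg _)
      _ = |∫ p, (4:ℝ) ^ N * L (((N:ℤ) - k).toNat) p ∂P| := one_mul _
      _ ≤ ∫ p, |(4:ℝ) ^ N * L (((N:ℤ) - k).toNat) p| ∂P := abs_integral_le_integral_abs
      _ = _ := by
        congr 1; funext p
        rw [abs_mul, abs_of_pos (by positivity : (0:ℝ) < (4:ℝ) ^ N)]
  have s2 : ∑ k ∈ S, ∫ p, (4:ℝ) ^ N * |L (((N:ℤ) - k).toNat) p| ∂P =
      ∫ p, ∑ k ∈ S, (4:ℝ) ^ N * |L (((N:ℤ) - k).toNat) p| ∂P := by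
    rw [integral_finsetSum]
    intro k _
    exact ((hL _).abs.const_mul _).integrable _
  have hsum : ∀ p, ∑ k ∈ S, (4:ℝ) ^ N * |L (((N:ℤ) - k).toNat) p| ≤
      |C| * ((4:ℝ) ^ N * a3 n (fun i j => f (pt l i p.1, pt l j p.2.1)) +
        (4:ℝ) ^ N * a3 n (fun i j => g (pt l i p.2.1, pt l j p.2.2)) +
        (4:ℝ) ^ N * a3 n (fun i j => h (pt l i p.2.2, pt l j p.1))) := by
    intro p
    rw [← Finset.mul_sum]
    have i1 : ∑ k ∈ S, |L (((N:ℤ) - k).toNat) p| ≤ ∑ s ∈ range n, |L s p| := by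
      have : Set.InjOn (fun k : ℤ => ((N:ℤ) - k).toNat) (S : Set ℤ) := by
        intro a ha b hb hab
        have h1 := (hsK a ha).2
        have h2 := (hsK b hb).2
        simp only at hab
        rw [hab] at h1
        rw [h1]; exact h2.symm
      rw [← Finset.sum_image (f := fun s => |L s p|) this]
      apply Finset.sum_le_sum_of_subset_of_nonneg
      · intro s hs
        obtain ⟨k, hk1, rfl⟩ := Finset.mem_image.mp hs
        exact Finset.mem_range.mpr (hsK k hk1).1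
      · intro _ _ _; exact abs_nonneg _
    have i2 := hC n (fun i j => f (pt l i p.1, pt l j p.2.1))
        (fun i j => g (pt l i p.2.1, pt l j p.2.2)) (fun i j => h (pt l i p.2.2, pt l j p.1))
    have n1 := a3_nonneg n (fun i j => f (pt l i p.1, pt l j p.2.1))
    have n2 := a3_nonneg n (fun i j => g (pt l i p.2.1, pt l j p.2.2))
    have n3 := a3_nonneg n (fun i j => h (pt l i p.2.2, pt l j p.1))
    have i3 : ∑ k ∈ S, |L (((N:ℤ) - k).toNat) p| ≤ |C| * (a3 n (fun i j => f (pt l i p.1, pt l j p.2.1)) +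
        a3 n (fun i j => g (pt l i p.2.1, pt l j p.2.2)) + a3 n (fun i j => h (pt l i p.2.2, pt l j p.1))) := by
      refine le_trans i1 (le_trans i2 ?_)
      exact mul_le_mul_of_nonneg_right (le_abs_self C) (by positivity)
    calc _ ≤ (4:ℝ) ^ N * (|C| * (a3 n (fun i j => f (pt l i p.1, pt l j p.2.1)) +
        a3 n (fun i j => g (pt l i p.2.1, pt l j p.2.2)) + a3 n (fun i j => h (pt l i p.2.2, pt l j p.1)))) :=
          mul_le_mul_of_nonneg_left i3 (by positivity)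
      _ = _ := by ring
  have bf := (a3_BM l n hf.bm).const_mul ((4:ℝ) ^ N)
  have bg := (a3_BM l n hg.bm).const_mul ((4:ℝ) ^ N)
  have bh := (a3_BM l n hh'.bm).const_mul ((4:ℝ) ^ N)
  have bf' : BM (fun p : ℝ × ℝ × ℝ => (4:ℝ) ^ N * a3 n (fun i j => f (pt l i p.1, pt l j p.2.1))) :=
    bf.comp (g := fun p : ℝ × ℝ × ℝ => (p.1, p.2.1)) (by fun_prop)
  have bg' : BM (fun p : ℝ × ℝ × ℝ => (4:ℝ) ^ N * a3 n (fun i j => g (pt l i p.2.1, pt l j p.2.2))) :=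
    bg.comp (g := fun p : ℝ × ℝ × ℝ => (p.2.1, p.2.2)) (by fun_prop)
  have bh' : BM (fun p : ℝ × ℝ × ℝ => (4:ℝ) ^ N * a3 n (fun i j => h (pt l i p.2.2, pt l j p.1))) :=
    bh.comp (g := fun p : ℝ × ℝ × ℝ => (p.2.2, p.1)) (by fun_prop)
  rw [s2] at s1
  refine le_trans s1 ?_
  have s3 : ∫ p, ∑ k ∈ S, (4:ℝ) ^ N * |L (((N:ℤ) - k).toNat) p| ∂P ≤
      ∫ p : ℝ × ℝ × ℝ, |C| * ((4:ℝ) ^ N * a3 n (fun i j => f (pt l i p.1, pt l j p.2.1)) +
        (4:ℝ) ^ N * a3 n (fun i j => g (pt l i p.2.1, pt l j p.2.2)) +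
        (4:ℝ) ^ N * a3 n (fun i j => h (pt l i p.2.2, pt l j p.1))) ∂P := by
    apply integral_mono
    · exact (BM.sum _ (fun k _ => (hL _).abs.const_mul _)).integrable _
    · exact (((bf'.add bg').add bh').const_mul _).integrable _
    · exact hsum
  refine le_trans s3 ?_
  rw [integral_const_mul]
  apply mul_le_mul_of_nonneg_left _ (abs_nonneg C)
  rw [integral_add ((bf'.add bg').integrable _) (bh'.integrable _),
    integral_add (bf'.integrable _) (bg'.integrable _)]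
  have t1 : ∫ p : ℝ × ℝ × ℝ, (4:ℝ) ^ N * a3 n (fun i j => f (pt l i p.1, pt l j p.2.1)) ∂P ≤ ∫ p, |f p| ^ 3 := by
    have := iter3' bf
    simp only at this
    rw [show (∫ p : ℝ × ℝ × ℝ, (4:ℝ) ^ N * a3 n (fun i j => f (pt l i p.1, pt l j p.2.1)) ∂P) = _ from this]
    exact a3_int N l n hn hf
  have t2 : ∫ p : ℝ × ℝ × ℝ, (4:ℝ) ^ N * a3 n (fun i j => g (pt l i p.2.1, pt l j p.2.2)) ∂P ≤ ∫ p, |g p| ^ 3 := by
    have := iter3'' bg
    simp only at this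
    rw [show (∫ p : ℝ × ℝ × ℝ, (4:ℝ) ^ N * a3 n (fun i j => g (pt l i p.2.1, pt l j p.2.2)) ∂P) = _ from this]
    exact a3_int N l n hn hg
  have t3 : ∫ p : ℝ × ℝ × ℝ, (4:ℝ) ^ N * a3 n (fun i j => h (pt l i p.2.2, pt l j p.1)) ∂P ≤ ∫ p, |h p| ^ 3 := by
    have := iter3''' bh
    simp only at this
    rw [show (∫ p : ℝ × ℝ × ℝ, (4:ℝ) ^ N * a3 n (fun i j => h (pt l i p.2.2, pt l j p.1)) ∂P) = _ from this]
    exact a3_int N l n hn hh'
  linarith

theorem M9 (H : FSflat) :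
    ∃ C : ℝ, ∀ (S : Finset ℤ) (ε : ℤ → ℝ), (∀ k, |ε k| ≤ 1) →
      ∀ f g h : ℝ × ℝ → ℝ,
        Measurable f → Measurable g → Measurable h →
        HasCompactSupport f → HasCompactSupport g → HasCompactSupport h →
        (∃ M : ℝ, ∀ p, |f p| ≤ M) → (∃ M : ℝ, ∀ p, |g p| ≤ M) → (∃ M : ℝ, ∀ p, |h p| ≤ M) →
        |∑ k ∈ S, (2:ℝ) ^ (-k) * ε k *
            ∑' ab : ℕ × ℕ, ∫ x : ℝ, ∫ y : ℝ, ∫ z : ℝ,
              f (x, y) * g (y, z) * h (z, x) *
              (Set.indicator (Set.Ico ((2:ℝ) ^ k * (ab.1 : ℝ))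
                  ((2:ℝ) ^ k * (ab.1 : ℝ) + (2:ℝ) ^ (k - 1))) (fun _ => (1:ℝ)) x
                - Set.indicator (Set.Ico ((2:ℝ) ^ k * (ab.1 : ℝ) + (2:ℝ) ^ (k - 1))
                  ((2:ℝ) ^ k * ((ab.1 : ℝ) + 1))) (fun _ => (1:ℝ)) x) *
              (Set.indicator (Set.Ico ((2:ℝ) ^ k * (ab.2 : ℝ))
                  ((2:ℝ) ^ k * (ab.2 : ℝ) + (2:ℝ) ^ (k - 1))) (fun _ => (1:ℝ)) y
                - Set.indicator (Set.Ico ((2:ℝ) ^ k * (ab.2 : ℝ) + (2:ℝ) ^ (k - 1))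
                  ((2:ℝ) ^ k * ((ab.2 : ℝ) + 1))) (fun _ => (1:ℝ)) y) *
              (Set.indicator (Set.Ico ((2:ℝ) ^ k * ((ab.1 ^^^ ab.2 : ℕ) : ℝ))
                  ((2:ℝ) ^ k * ((ab.1 ^^^ ab.2 : ℕ) : ℝ) + (2:ℝ) ^ (k - 1))) (fun _ => (1:ℝ)) z
                - Set.indicator (Set.Ico ((2:ℝ) ^ k * ((ab.1 ^^^ ab.2 : ℕ) : ℝ) + (2:ℝ) ^ (k - 1))
                  ((2:ℝ) ^ k * (((ab.1 ^^^ ab.2 : ℕ) : ℝ) + 1))) (fun _ => (1:ℝ)) z)|
          ≤ C * (eLpNorm f 3 volume).toReal * (eLpNorm g 3 volume).toReal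
              * (eLpNorm h 3 volume).toReal := by
  obtain ⟨C, hC⟩ := H
  refine ⟨3 * |C|, fun S ε hε f g h mf mg mh cf cg ch bf bg bh => ?_⟩
  have hf : Adm f := ⟨mf, cf, bf⟩
  have hg : Adm g := ⟨mg, cg, bg⟩
  have hh' : Adm h := ⟨mh, ch, bh⟩
  set A := (eLpNorm f 3 volume).toReal with hA
  set B := (eLpNorm g 3 volume).toReal with hB
  set D := (eLpNorm h 3 volume).toReal with hD
  have hA0 : 0 ≤ A := ENNReal.toReal_nonneg
  have hB0 : 0 ≤ B := ENNReal.toReal_nonneg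
  have hD0 : 0 ≤ D := ENNReal.toReal_nonneg
  change |Form S ε f g h| ≤ _
  have key : ∀ η : ℝ, 0 < η → |Form S ε f g h| ≤ 3 * |C| * ((A + η) * (B + η) * (D + η)) := by
    intro η hη
    have pA : 0 < A + η := by linarith
    have pB : 0 < B + η := by linarith
    have pD : 0 < D + η := by linarith
    set r : ℝ := ((A + η) * (B + η) * (D + η)) ^ ((3:ℕ):ℝ)⁻¹ with hr
    have hr3 : r ^ 3 = (A + η) * (B + η) * (D + η) :=
      Real.rpow_inv_natCast_pow (by positivity) (by norm_num)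
    have hr0 : 0 < r := Real.rpow_pos_of_pos (by positivity) _
    have hprod : (r / (A + η)) * (r / (B + η)) * (r / (D + η)) = 1 := by
      rw [div_mul_div_comm, div_mul_div_comm, show r * r * r = r ^ 3 by ring, hr3]
      exact div_self (by positivity)
    have h1 := form_cubes hC S ε hε (hf.const_mul (r / (A + η))) (hg.const_mul (r / (B + η)))
      (hh'.const_mul (r / (D + η)))
    rw [Form_scale, hprod, one_mul] at h1
    have hcube : ∀ (F : ℝ × ℝ → ℝ) (X : ℝ), Adm F → (eLpNorm F 3 volume).toReal = X → 0 ≤ X →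
        ∫ p, |r / (X + η) * F p| ^ 3 ≤ (A + η) * (B + η) * (D + η) := by
      intro F X hF hX hX0
      have h2 : ∀ p, |r / (X + η) * F p| ^ 3 = (r / (X + η)) ^ 3 * |F p| ^ 3 := by
        intro p
        rw [abs_mul, mul_pow, abs_of_pos (by positivity : 0 < r / (X + η))]
      simp_rw [h2]
      rw [integral_const_mul, ← hF.cube, hX, div_pow, hr3]
      have h3 : X ^ 3 / (X + η) ^ 3 ≤ 1 := by
        rw [div_le_one (by positivity)]
        exact pow_le_pow_left₀ hX0 (by linarith) 3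
      calc (A + η) * (B + η) * (D + η) / (X + η) ^ 3 * X ^ 3 = (A + η) * (B + η) * (D + η) * (X ^ 3 / (X + η) ^ 3) := by
            ring
        _ ≤ (A + η) * (B + η) * (D + η) * 1 := mul_le_mul_of_nonneg_left h3 (by positivity)
        _ = _ := mul_one _
    have c1 := hcube f A hf rfl hA0
    have c2 := hcube g B hg rfl hB0
    have c3 := hcube h D hh' rfl hD0
    refine le_trans h1 ?_
    calc _ ≤ |C| * ((A + η) * (B + η) * (D + η) + (A + η) * (B + η) * (D + η) + (A + η) * (B + η) * (D + η)) := by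
          apply mul_le_mul_of_nonneg_left _ (abs_nonneg C)
          linarith
      _ = _ := by ring
  have ht : Filter.Tendsto (fun η : ℝ => 3 * |C| * ((A + η) * (B + η) * (D + η))) (nhdsWithin 0 (Set.Ioi 0))
      (nhds (3 * |C| * ((A + 0) * (B + 0) * (D + 0)))) := by
    have hcont : Continuous (fun η : ℝ => 3 * |C| * ((A + η) * (B + η) * (D + η))) := by fun_prop
    exact (hcont.tendsto 0).mono_left nhdsWithin_le_nhds
  have hfin : |Form S ε f g h| ≤ 3 * |C| * ((A + 0) * (B + 0) * (D + 0)) :=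
    ge_of_tendsto ht (eventually_nhdsWithin_of_forall (fun η hη => key η hη))
  calc |Form S ε f g h| ≤ 3 * |C| * ((A + 0) * (B + 0) * (D + 0)) := hfin
    _ = 3 * |C| * A * B * D := by ring

end TH19
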