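import Pool.Agent.Helper19.TH.Base

set_option autoImplicit false
open MeasureTheory Finset

namespace TH19

/-- sample point -/
noncomputable def pt (l m : ℕ) (u : ℝ) : ℝ := (2:ℝ) ^ (-(l:ℤ)) * ((m:ℝ) + u)

lemma pt_meas (l m : ℕ) : Measurable (pt l m) := by unfold pt; fun_prop

lemma lemA' (l t : ℕ) (k : ℤ) (hk : k = (t:ℤ) + 1 - l) (a : ℕ) {φ : ℝ → ℝ} (hφ : BM φ) :
    ∫ x, φ x * hh k a x = ∫ u, (2:ℝ) ^ (-(l:ℤ)) * ∑ i ∈ range (2 ^ (t + 1)), sg (2 ^ (t + 1)) i *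
      φ (pt l (a * 2 ^ (t + 1) + i) u) ∂nu := lemA l t k hk a hφ

/-- moving a finite signed sum inside an integral -/
lemma sum_int {ι : Type*} (s : Finset ι) (d : ℝ) (c : ι → ℝ) (F : ι → ℝ → ℝ) (hF : ∀ i ∈ s, BM (F i)) :
    d * ∑ i ∈ s, c i * ∫ v, F i v ∂nu = ∫ v, d * ∑ i ∈ s, c i * F i v ∂nu := by
  rw [integral_const_mul, integral_finsetSum]
  · simp_rw [integral_const_mul]
  · intro i hi
    exact ((hF i hi).integrable nu).const_mul _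

lemma tri (l t : ℕ) (k : ℤ) (hk : k = (t:ℤ) + 1 - l) (a b c : ℕ) {K : ℝ × ℝ × ℝ → ℝ} (hK : BM K) :
    ∫ x, ∫ y, ∫ z, K (x, y, z) * hh k a x * hh k b y * hh k c z
      = ∫ u, ∫ v, ∫ w, (2:ℝ) ^ (-(l:ℤ)) * ∑ i ∈ range (2 ^ (t + 1)), sg (2 ^ (t + 1)) i *
          ((2:ℝ) ^ (-(l:ℤ)) * ∑ j ∈ range (2 ^ (t + 1)), sg (2 ^ (t + 1)) j *
            ((2:ℝ) ^ (-(l:ℤ)) * ∑ m ∈ range (2 ^ (t + 1)), sg (2 ^ (t + 1)) m *
              K (pt l (a * 2 ^ (t + 1) + i) u, pt l (b * 2 ^ (t + 1) + j) v, pt l (c * 2 ^ (t + 1) + m) w)))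
          ∂nu ∂nu ∂nu := by
  set δ : ℝ := (2:ℝ) ^ (-(l:ℤ)) with hδ
  set M := 2 ^ (t + 1) with hM
  -- K1
  let K1 : ℝ × ℝ → ℝ := fun p => ∫ w, δ * ∑ m ∈ range M, sg M m * K (p.1, p.2, pt l (c * M + m) w) ∂nu
  have hK1 : BM K1 := by
    have : BM (fun q : (ℝ × ℝ) × ℝ => δ * ∑ m ∈ range M, sg M m * K (q.1.1, q.1.2, pt l (c * M + m) q.2)) := by
      refine BM.const_mul (BM.sum _ (fun m _ => BM.const_mul ?_ _)) _
      apply hK.comp
      have := pt_meas l (c * M + m)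
      fun_prop
    exact this.part
  have hz : ∀ x y, ∫ z, K (x, y, z) * hh k a x * hh k b y * hh k c z = hh k a x * (K1 (x, y) * hh k b y) := by
    intro x y
    have h1 : ∀ z, K (x, y, z) * hh k a x * hh k b y * hh k c z
        = (hh k a x * hh k b y) * (K (x, y, z) * hh k c z) := by intro z; ring
    simp_rw [h1]
    rw [integral_const_mul, lemA' l t k hk c (φ := fun z => K (x, y, z)) (hK.comp (by fun_prop))]
    simp only [K1]
    ring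
  let K2 : ℝ → ℝ := fun x => ∫ v, δ * ∑ j ∈ range M, sg M j * K1 (x, pt l (b * M + j) v) ∂nu
  have hK2 : BM K2 := by
    have : BM (fun q : ℝ × ℝ => δ * ∑ j ∈ range M, sg M j * K1 (q.1, pt l (b * M + j) q.2)) := by
      refine BM.const_mul (BM.sum _ (fun m _ => BM.const_mul ?_ _)) _
      apply hK1.comp
      have := pt_meas l (b * M + m)
      fun_prop
    exact this.part
  have hy : ∀ x, ∫ y, hh k a x * (K1 (x, y) * hh k b y) = K2 x * hh k a x := by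
    intro x
    rw [integral_const_mul, lemA' l t k hk b (φ := fun y => K1 (x, y)) (hK1.comp (by fun_prop))]
    simp only [K2]
    ring
  simp_rw [hz, hy]
  rw [lemA' l t k hk a hK2]
  congr 1
  funext u
  simp only [K2]
  rw [sum_int (range M) δ (fun i => sg M i) (fun i v => δ * ∑ j ∈ range M, sg M j *
    K1 (pt l (a * 2 ^ (t + 1) + i) u, pt l (b * M + j) v))]
  · congr 1
    funext v
    have e1 : ∀ i ∈ range M, sg M i * (δ * ∑ j ∈ range M, sg M j *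
        K1 (pt l (a * 2 ^ (t + 1) + i) u, pt l (b * M + j) v)) =
        sg M i * ∫ w, δ * ∑ j ∈ range M, sg M j * (δ * ∑ m ∈ range M, sg M m *
          K (pt l (a * 2 ^ (t + 1) + i) u, pt l (b * M + j) v, pt l (c * M + m) w)) ∂nu := by
      intro i _
      simp only [K1]
      rw [sum_int (range M) δ (fun j => sg M j) (fun j w => δ * ∑ m ∈ range M, sg M m *
        K (pt l (a * 2 ^ (t + 1) + i) u, pt l (b * M + j) v, pt l (c * M + m) w))]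
      intro j _
      refine BM.const_mul (BM.sum _ (fun m _ => BM.const_mul ?_ _)) _
      apply hK.comp
      have := pt_meas l (c * M + m)
      fun_prop
    rw [Finset.sum_congr rfl e1]
    rw [sum_int (range M) δ (fun i => sg M i) (fun i w => δ * ∑ j ∈ range M, sg M j * (δ * ∑ m ∈ range M, sg M m *
          K (pt l (a * 2 ^ (t + 1) + i) u, pt l (b * M + j) v, pt l (c * M + m) w)))]
    intro i _
    refine BM.const_mul (BM.sum _ (fun j _ => BM.const_mul (BM.const_mul (BM.sum _ (fun m _ => BM.const_mul ?_ _)) _) _)) _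
    apply hK.comp
    have := pt_meas l (c * M + m)
    fun_prop
  · intro i _
    refine BM.const_mul (BM.sum _ (fun m _ => BM.const_mul ?_ _)) _
    apply hK1.comp
    have := pt_meas l (b * M + m)
    fun_prop

lemma hh_zero_of_lt {k : ℤ} {a : ℕ} {x : ℝ} (hx : x < (2:ℝ) ^ k * a) : hh k a x = 0 := by
  unfold hh
  have h2 : (0:ℝ) < (2:ℝ) ^ (k - 1) := by positivity
  rw [Set.indicator_of_notMem, Set.indicator_of_notMem, sub_zero]
  · rintro ⟨h1, _⟩; linarith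
  · rintro ⟨h1, _⟩; linarith

/-- supported in the box of size 2^N -/
def Supp (N : ℕ) (f : ℝ × ℝ → ℝ) : Prop := ∀ x y, f (x, y) ≠ 0 → |x| < 2 ^ N ∧ |y| < 2 ^ N

lemma supp_zero {N s : ℕ} {k : ℤ} (hk : k = (N:ℤ) - s) {f : ℝ × ℝ → ℝ} (hf : Supp N f) (a b : ℕ)
    (hab : 2 ^ s ≤ a ∨ 2 ^ s ≤ b) (x y : ℝ) : f (x, y) * hh k a x * hh k b y = 0 := by
  have key : ∀ (c : ℕ) (t : ℝ), 2 ^ s ≤ c → |t| < 2 ^ N → hh k c t = 0 := by
    intro c t hc ht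
    apply hh_zero_of_lt
    have h1 : (2:ℝ) ^ k * (2:ℝ) ^ s = 2 ^ N := by
      rw [hk, ← zpow_natCast (2:ℝ) s, ← zpow_natCast (2:ℝ) N, ← zpow_add₀ (by norm_num : (2:ℝ) ≠ 0)]
      congr 1; ring
    have h2 : (2:ℝ) ^ s ≤ c := by exact_mod_cast hc
    calc t ≤ |t| := le_abs_self _
      _ < 2 ^ N := ht
      _ = (2:ℝ) ^ k * (2:ℝ) ^ s := h1.symm
      _ ≤ (2:ℝ) ^ k * c := mul_le_mul_of_nonneg_left h2 (by positivity)
  by_cases h0 : f (x, y) = 0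
  · simp [h0]
  · obtain ⟨h1, h2⟩ := hf x y h0
    rcases hab with h | h
    · rw [key a x h h1]; ring
    · rw [key b y h h2]; ring

lemma iter3 {F : ℝ × ℝ × ℝ → ℝ} (hF : BM F) :
    ∫ u, ∫ v, ∫ w, F (u, v, w) ∂nu ∂nu ∂nu = ∫ p, F p ∂(nu.prod (nu.prod nu)) := by
  rw [integral_prod _ (hF.integrable _)]
  congr 1
  funext u
  rw [integral_prod (fun q : ℝ × ℝ => F (u, q)) ((hF.comp (by fun_prop)).integrable _)]

lemma const_id (N l n s t : ℕ) (hn : n = N + l) (hs : s < n) (ht : n - s = t + 1) (k : ℤ) (hk : k = (N:ℤ) - s) :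
    (2:ℝ) ^ (-k) * (2:ℝ) ^ (-(l:ℤ)) * (2:ℝ) ^ (-(l:ℤ)) * (2:ℝ) ^ (-(l:ℤ))
      = (4:ℝ) ^ N * (((4:ℝ) ^ s)⁻¹ * ((8:ℝ) ^ (t + 1))⁻¹) := by
  have h2 : (2:ℝ) ≠ 0 := by norm_num
  have e4 : ∀ m : ℕ, (4:ℝ) ^ m = (2:ℝ) ^ (2 * (m:ℤ)) := by
    intro m
    rw [zpow_mul, zpow_natCast]; norm_num
  have e8 : ∀ m : ℕ, (8:ℝ) ^ m = (2:ℝ) ^ (3 * (m:ℤ)) := by
    intro m
    rw [zpow_mul, zpow_natCast]; norm_num
  rw [e4, e4, e8, ← zpow_neg, ← zpow_neg, ← zpow_add₀ h2, ← zpow_add₀ h2, ← zpow_add₀ h2, ← zpow_add₀ h2,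
    ← zpow_add₀ h2]
  congr 1
  push_cast
  omega

/-- main identity for one scale -/
lemma scale_id (N l n s : ℕ) (hn : n = N + l) (hs : s < n) (k : ℤ) (hk : k = (N:ℤ) - s)
    {f g h : ℝ × ℝ → ℝ} (hf : BM f) (hg : BM g) (hh' : BM h) (hsf : Supp N f) :
    (2:ℝ) ^ (-k) * ∑' ab : ℕ × ℕ, ∫ x, ∫ y, ∫ z, f (x, y) * g (y, z) * h (z, x) * hh k ab.1 x * hh k ab.2 y *
        hh k (ab.1 ^^^ ab.2) z
      = ∫ u, ∫ v, ∫ w, (4:ℝ) ^ N * Lam n s (fun i j => f (pt l i u, pt l j v)) (fun i j => g (pt l i v, pt l j w))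
          (fun i j => h (pt l i w, pt l j u)) ∂nu ∂nu ∂nu := by
  obtain ⟨t, ht⟩ : ∃ t, n - s = t + 1 := ⟨n - s - 1, by omega⟩
  have hk' : k = (t:ℤ) + 1 - l := by omega
  have hK : BM (fun p : ℝ × ℝ × ℝ => f (p.1, p.2.1) * g (p.2.1, p.2.2) * h (p.2.2, p.1)) :=
    ((hf.comp (by fun_prop)).mul (hg.comp (by fun_prop))).mul (hh'.comp (by fun_prop))
  rw [tsum_eq_sum (s := range (2 ^ s) ×ˢ range (2 ^ s))]
  · rw [Finset.sum_product]
    have e1 : ∀ p q : ℕ, ∫ x, ∫ y, ∫ z, f (x, y) * g (y, z) * h (z, x) * hh k (p, q).1 x * hh k (p, q).2 y *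
        hh k ((p, q).1 ^^^ (p, q).2) z = ∫ u, ∫ v, ∫ w, (2:ℝ) ^ (-(l:ℤ)) * ∑ i ∈ range (2 ^ (t + 1)), sg (2 ^ (t + 1)) i *
          ((2:ℝ) ^ (-(l:ℤ)) * ∑ j ∈ range (2 ^ (t + 1)), sg (2 ^ (t + 1)) j *
            ((2:ℝ) ^ (-(l:ℤ)) * ∑ m ∈ range (2 ^ (t + 1)), sg (2 ^ (t + 1)) m *
              (f (pt l (p * 2 ^ (t + 1) + i) u, pt l (q * 2 ^ (t + 1) + j) v) *
                g (pt l (q * 2 ^ (t + 1) + j) v, pt l ((p ^^^ q) * 2 ^ (t + 1) + m) w) *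
                h (pt l ((p ^^^ q) * 2 ^ (t + 1) + m) w, pt l (p * 2 ^ (t + 1) + i) u))))
          ∂nu ∂nu ∂nu := by
      intro p q
      exact tri l t k hk' p q (p ^^^ q) hK
    simp_rw [e1]
    have hG : ∀ p q : ℕ, BM (fun r : ℝ × ℝ × ℝ => (2:ℝ) ^ (-(l:ℤ)) * ∑ i ∈ range (2 ^ (t + 1)), sg (2 ^ (t + 1)) i *
          ((2:ℝ) ^ (-(l:ℤ)) * ∑ j ∈ range (2 ^ (t + 1)), sg (2 ^ (t + 1)) j *
            ((2:ℝ) ^ (-(l:ℤ)) * ∑ m ∈ range (2 ^ (t + 1)), sg (2 ^ (t + 1)) m *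
              (f (pt l (p * 2 ^ (t + 1) + i) r.1, pt l (q * 2 ^ (t + 1) + j) r.2.1) *
                g (pt l (q * 2 ^ (t + 1) + j) r.2.1, pt l ((p ^^^ q) * 2 ^ (t + 1) + m) r.2.2) *
                h (pt l ((p ^^^ q) * 2 ^ (t + 1) + m) r.2.2, pt l (p * 2 ^ (t + 1) + i) r.1))))) := by
      intro p q
      refine BM.const_mul (BM.sum _ (fun i _ => BM.const_mul (BM.const_mul (BM.sum _ (fun j _ =>
        BM.const_mul (BM.const_mul (BM.sum _ (fun m _ => BM.const_mul ?_ _)) _) _)) _) _)) _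
      have m1 := pt_meas l (p * 2 ^ (t + 1) + i)
      have m2 := pt_meas l (q * 2 ^ (t + 1) + j)
      have m3 := pt_meas l ((p ^^^ q) * 2 ^ (t + 1) + m)
      exact ((hf.comp (by fun_prop)).mul (hg.comp (by fun_prop))).mul (hh'.comp (by fun_prop))
    have e2 : ∀ p q : ℕ, ∫ u, ∫ v, ∫ w, (2:ℝ) ^ (-(l:ℤ)) * ∑ i ∈ range (2 ^ (t + 1)), sg (2 ^ (t + 1)) i *
          ((2:ℝ) ^ (-(l:ℤ)) * ∑ j ∈ range (2 ^ (t + 1)), sg (2 ^ (t + 1)) j *
            ((2:ℝ) ^ (-(l:ℤ)) * ∑ m ∈ range (2 ^ (t + 1)), sg (2 ^ (t + 1)) m *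
              (f (pt l (p * 2 ^ (t + 1) + i) u, pt l (q * 2 ^ (t + 1) + j) v) *
                g (pt l (q * 2 ^ (t + 1) + j) v, pt l ((p ^^^ q) * 2 ^ (t + 1) + m) w) *
                h (pt l ((p ^^^ q) * 2 ^ (t + 1) + m) w, pt l (p * 2 ^ (t + 1) + i) u))))
          ∂nu ∂nu ∂nu = ∫ r, (fun r : ℝ × ℝ × ℝ => (2:ℝ) ^ (-(l:ℤ)) * ∑ i ∈ range (2 ^ (t + 1)), sg (2 ^ (t + 1)) i *
          ((2:ℝ) ^ (-(l:ℤ)) * ∑ j ∈ range (2 ^ (t + 1)), sg (2 ^ (t + 1)) j *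
            ((2:ℝ) ^ (-(l:ℤ)) * ∑ m ∈ range (2 ^ (t + 1)), sg (2 ^ (t + 1)) m *
              (f (pt l (p * 2 ^ (t + 1) + i) r.1, pt l (q * 2 ^ (t + 1) + j) r.2.1) *
                g (pt l (q * 2 ^ (t + 1) + j) r.2.1, pt l ((p ^^^ q) * 2 ^ (t + 1) + m) r.2.2) *
                h (pt l ((p ^^^ q) * 2 ^ (t + 1) + m) r.2.2, pt l (p * 2 ^ (t + 1) + i) r.1))))) r
          ∂(nu.prod (nu.prod nu)) := fun p q => iter3 (hG p q)
    simp_rw [e2]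
    have e3 : ∀ u v w : ℝ, (4:ℝ) ^ N * Lam n s (fun i j => f (pt l i u, pt l j v)) (fun i j => g (pt l i v, pt l j w))
          (fun i j => h (pt l i w, pt l j u)) = (2:ℝ) ^ (-k) * ∑ p ∈ range (2 ^ s), ∑ q ∈ range (2 ^ s),
        ((fun r : ℝ × ℝ × ℝ => (2:ℝ) ^ (-(l:ℤ)) * ∑ i ∈ range (2 ^ (t + 1)), sg (2 ^ (t + 1)) i *
          ((2:ℝ) ^ (-(l:ℤ)) * ∑ j ∈ range (2 ^ (t + 1)), sg (2 ^ (t + 1)) j *
            ((2:ℝ) ^ (-(l:ℤ)) * ∑ m ∈ range (2 ^ (t + 1)), sg (2 ^ (t + 1)) m *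
              (f (pt l (p * 2 ^ (t + 1) + i) r.1, pt l (q * 2 ^ (t + 1) + j) r.2.1) *
                g (pt l (q * 2 ^ (t + 1) + j) r.2.1, pt l ((p ^^^ q) * 2 ^ (t + 1) + m) r.2.2) *
                h (pt l ((p ^^^ q) * 2 ^ (t + 1) + m) r.2.2, pt l (p * 2 ^ (t + 1) + i) r.1))))) (u, v, w)) := by
      intro u v w
      unfold Lam
      rw [ht]
      simp only [Finset.mul_sum]
      refine Finset.sum_congr rfl (fun p _ => Finset.sum_congr rfl (fun q _ => Finset.sum_congr rfl (fun i _ =>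
        Finset.sum_congr rfl (fun j _ => Finset.sum_congr rfl (fun m _ => ?_)))))
      have hc := const_id N l n s t hn hs ht k hk
      calc _ = ((4:ℝ) ^ N * (((4:ℝ) ^ s)⁻¹ * ((8:ℝ) ^ (t + 1))⁻¹)) * (sg (2 ^ (t + 1)) i * sg (2 ^ (t + 1)) j *
            sg (2 ^ (t + 1)) m * f (pt l (p * 2 ^ (t + 1) + i) u, pt l (q * 2 ^ (t + 1) + j) v) *
          g (pt l (q * 2 ^ (t + 1) + j) v, pt l ((p ^^^ q) * 2 ^ (t + 1) + m) w) *
          h (pt l ((p ^^^ q) * 2 ^ (t + 1) + m) w, pt l (p * 2 ^ (t + 1) + i) u)) := by ring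
        _ = _ := by rw [← hc]; ring
    simp_rw [e3]
    rw [iter3 (BM.const_mul (BM.sum _ (fun p _ => BM.sum _ (fun q _ => hG p q))) _)]
    rw [integral_const_mul, integral_finsetSum]
    · congr 1
      apply Finset.sum_congr rfl
      intro p _
      rw [integral_finsetSum]
      intro q _
      exact (hG p q).integrable _
    · intro p _
      exact (BM.sum _ (fun q _ => hG p q)).integrable _
  · intro ab hab
    have hab' : 2 ^ s ≤ ab.1 ∨ 2 ^ s ≤ ab.2 := by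
      by_contra hcon
      push Not at hcon
      apply hab
      rw [Finset.mem_product]
      exact ⟨Finset.mem_range.mpr hcon.1, Finset.mem_range.mpr hcon.2⟩
    have : ∀ x y z, f (x, y) * g (y, z) * h (z, x) * hh k ab.1 x * hh k ab.2 y * hh k (ab.1 ^^^ ab.2) z = 0 := by
      intro x y z
      have := supp_zero hk hsf ab.1 ab.2 hab' x y
      calc _ = (f (x, y) * hh k ab.1 x * hh k ab.2 y) * (g (y, z) * h (z, x) * hh k (ab.1 ^^^ ab.2) z) := by ring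
        _ = 0 := by rw [this]; ring
    simp [this]

end TH19
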